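import Pool.Agent.Lib.helper10.Kit

namespace Pool.Agent.Results.MP_54ee58_lc.Hard

open Pool.Agent.Cx Pool.Agent.Cis

/-- the vertices adjacent to some vertex of `X` -/
def nbr {V : Type} (G : SimpleGraph V) (X : Set V) : Set V := {v | ∃ x ∈ X, G.Adj x v}

/-- the difference `|X| - |N(X)|` -/
noncomputable def dif {V : Type} (G : SimpleGraph V) (X : Set V) : ℤ :=
  (X.ncard : ℤ) - ((nbr G X).ncard : ℤ)

/-- a maximum independent set -/
def MaxInd {V : Type} (G : SimpleGraph V) (S : Set V) : Prop :=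
  G.IsIndepSet S ∧ ∀ T, G.IsIndepSet T → T.ncard ≤ S.ncard

/-- the intersection of all maximum independent sets -/
def core {V : Type} (G : SimpleGraph V) : Set V := ⋂₀ {S | MaxInd G S}

/-- a critical independent set -/
def Critical {V : Type} (G : SimpleGraph V) (I : Set V) : Prop :=
  G.IsIndepSet I ∧ ∀ J, G.IsIndepSet J → dif G J ≤ dif G I

/-- a maximum critical independent set -/
def MaxCrit {V : Type} (G : SimpleGraph V) (I : Set V) : Prop :=
  Critical G I ∧ ∀ J, Critical G J → J.ncard ≤ I.ncard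

/-- the intersection of all maximum critical independent sets -/
def nucleus {V : Type} (G : SimpleGraph V) : Set V := ⋂₀ {I | MaxCrit G I}

/-- `M` is the adjacency matrix of a graph whose core equals its nucleus -/
def Rec (M : List (List Bool)) : Prop := IsGraph M ∧ core (graphOf M) = nucleus (graphOf M)

def adj (b : ℕ) (M : List (List Bool)) (p q : ℕ × ℕ) : Prop :=
  p.1 ≠ q.1 ∨ ((p.1 = 0 ↔ b = 1) ∧ p.2 ≠ q.2 ∧ p.2 < M.length ∧ q.2 < M.length ∧
    ¬ (ent M p.2 q.2 = true ∧ ent M q.2 p.2 = true))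

instance (b : ℕ) (M : List (List Bool)) : DecidableRel (adj b M) := fun _ _ => by
  unfold adj; infer_instance

def ok (b n k : ℕ) (p : ℕ × ℕ) : Prop :=
  ((p.1 = 0 ↔ b = 1) ∧ p.2 < n + b) ∨ (¬ (p.1 = 0 ↔ b = 1) ∧ p.2 < k)

instance (b n k : ℕ) : DecidablePred (ok b n k) := fun _ => by unfold ok; infer_instance

section
variable {V : Type} [Finite V] {G : SimpleGraph V} {b k : ℕ} {M : List (List Bool)} {f : V → ℕ × ℕ}
  (h1 : ∀ a c, G.Adj a c ↔ adj b M (f a) (f c))
  (h2 : ∀ p, (∃ a, f a = p) ↔ p.1 < M.length + 3 ∧ ok b M.length k p) (h3 : f.Injective)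
  (hb : b ≤ 1) (hk : 2 ≤ k) (hn : k ≤ M.length)
include h1 h2 h3 hb hk hn

omit [Finite V] h2 hb hk hn in
lemma same {S : Set V} (hS : G.IsIndepSet S) {a c : V} (ha : a ∈ S) (hc : c ∈ S) :
    (f a).1 = (f c).1 := by
  by_contra e
  exact hS ha hc (fun h => e (by rw [h])) ((h1 _ _).2 (Or.inl e))

omit [Finite V] h2 hb hk hn in
lemma card_snd {S : Set V} (hS : G.IsIndepSet S) : S.ncard = ((fun a => (f a).2) '' S).ncard :=
  (Set.InjOn.ncard_image fun a ha c hc e => h3 (Prod.ext (same h1 h3 hS ha hc) e)).symm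

omit [Finite V] h2 hb hk hn in
lemma card_le {S : Set V} (hS : G.IsIndepSet S) {m : ℕ} (h : ∀ a ∈ S, (f a).2 < m) : S.ncard ≤ m := by
  rw [card_snd h1 h3 hS]
  refine (Set.ncard_le_ncard (t := Set.Iio m) ?_).trans (by simp)
  rintro _ ⟨a, ha, rfl⟩
  exact h a ha

lemma dif_neg {S : Set V} (hS : G.IsIndepSet S) {a : V} (ha : a ∈ S) : dif G S < 0 := by
  have e1 : S.ncard ≤ M.length + 1 := card_le h1 h3 hS fun c _ => by
    have := ((h2 _).1 ⟨c, rfl⟩).2
    unfold ok at this; omega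
  have e2 : Set.Iio (M.length + 3) \ {(f a).1} ⊆ (fun c => (f c).1) '' nbr G S := by
    rintro p ⟨hp, hp'⟩
    obtain ⟨c, hc⟩ := (h2 (p, 0)).2 ⟨hp, by unfold ok; by_cases (p = 0 ↔ b = 1) <;> simp [*] <;> omega⟩
    exact ⟨c, ⟨a, ha, (h1 _ _).2 (Or.inl (by rw [hc]; exact fun e => hp' e.symm))⟩, by simp [hc]⟩
  have e3 := (Set.ncard_le_ncard e2).trans (Set.ncard_image_le (Set.toFinite _))
  have e4 := Set.ncard_sdiff_singleton_add_one (s := Set.Iio (M.length + 3)) (a := (f a).1)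
    ((h2 _).1 ⟨a, rfl⟩).1
  simp only [Set.ncard_Iio_nat] at e4
  unfold dif; omega

lemma nuc : nucleus G = ∅ := by
  have e0 : dif G ∅ = 0 := by simp [dif, nbr]
  have e1 : G.IsIndepSet (∅ : Set V) := by simp [SimpleGraph.IsIndepSet]
  refine Set.subset_eq_empty (Set.sInter_subset_of_mem ⟨⟨e1, fun J hJ => ?_⟩, fun J hJ => ?_⟩) rfl
  · rcases J.eq_empty_or_nonempty with rfl | ⟨a, ha⟩
    · rfl
    · exact e0 ▸ (dif_neg h1 h2 h3 hb hk hn hJ ha).le
  · rcases J.eq_empty_or_nonempty with rfl | ⟨a, ha⟩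
    · rfl
    · have := hJ.2 ∅ e1
      have := dif_neg h1 h2 h3 hb hk hn hJ.1 ha
      omega

omit hb hk hn in
/-- copy a set of second coordinates into part `p` -/
lemma part (p : ℕ) (hp : p < M.length + 3) (T : Set ℕ) (hT : ∀ i ∈ T, ok b M.length k (p, i))
    (hI : ∀ i ∈ T, ∀ j ∈ T, ¬ adj b M (p, i) (p, j)) :
    ∃ S : Set V, G.IsIndepSet S ∧ S.ncard = T.ncard ∧ ∀ a ∈ S, (f a).1 = p := by
  have e : G.IsIndepSet {a | (f a).1 = p ∧ (f a).2 ∈ T} := fun a ha c hc _ h =>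
    hI _ ha.2 _ hc.2 (by have := (h1 _ _).1 h; rwa [← ha.1, Prod.mk.eta, ha.1, ← hc.1, Prod.mk.eta])
  refine ⟨_, e, ?_, fun a ha => ha.1⟩
  rw [card_snd h1 h3 e]
  congr 1
  ext i
  constructor
  · rintro ⟨a, ha, rfl⟩; exact ha.2
  · intro hi
    obtain ⟨a, ha⟩ := (h2 (p, i)).2 ⟨hp, hT i hi⟩
    exact ⟨a, by simp [ha, hi], by simp [ha]⟩

omit [Finite V] h1 h2 h3 hb hk hn in
lemma ex_max [Finite V] : ∃ S, MaxInd G S := by
  obtain ⟨S, a, c⟩ := Set.exists_max_image {S | G.IsIndepSet S} Set.ncard (Set.toFinite _)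
    ⟨∅, by simp [SimpleGraph.IsIndepSet]⟩
  exact ⟨S, a, c⟩

omit hb hk hn in
/-- a maximum independent set outside part 0 empties the core -/
lemma core_empty {S : Set V} (hS : MaxInd G S) (h0 : ∀ a ∈ S, (f a).1 ≠ 0) : core G = ∅ := by
  have e : ∀ p, 0 < p → p < 3 → ∃ T, MaxInd G T ∧ ∀ a ∈ T, (f a).1 = p := fun p p1 p2 => by
    obtain ⟨T, t1, t2, t3⟩ := part h1 h2 h3 p (by omega) ((fun a => (f a).2) '' S) (by
      rintro _ ⟨a, ha, rfl⟩
      have := ((h2 _).1 ⟨a, rfl⟩).2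
      have := h0 a ha
      unfold ok at *; simp only at *; omega) (by
      rintro _ ⟨a, ha, rfl⟩ _ ⟨c, hc, rfl⟩ h
      have := h0 a ha
      refine hS.1 ha hc (by rintro rfl; unfold adj at h; simp at h) ((h1 _ _).2 ?_)
      exact Or.inr ⟨by have := (h.resolve_left (by simp)).1; omega, (h.resolve_left (by simp)).2⟩)
    exact ⟨T, ⟨t1, fun U hU => by rw [t2, ← card_snd h1 h3 hS.1]; exact hS.2 U hU⟩, t3⟩
  obtain ⟨T, t1, t2⟩ := e 1 (by omega) (by omega)
  obtain ⟨U, u1, u2⟩ := e 2 (by omega) (by omega)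
  refine Set.eq_empty_iff_forall_notMem.2 fun a ha => ?_
  have := t2 a (ha T t1)
  have := u2 a (ha U u1)
  omega

omit hb hk in
lemma of_clq (h : HasClq M k) (p : ℕ) (hp : p < M.length + 3) (e : p = 0 ↔ b = 1) :
    ∃ S : Set V, G.IsIndepSet S ∧ S.ncard = k + min b 1 ∧ ∀ a ∈ S, (f a).1 = p := by
  obtain ⟨C, c1, c2, c3⟩ := h
  have c4 : M.length ∉ C := fun h => (c1 _ h).false
  obtain ⟨S, s1, s2, s3⟩ := part h1 h2 h3 p hp (C ∪ {i | i = M.length ∧ 0 < b}) (by
    rintro i (hi | hi)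
    · exact Or.inl ⟨e, by have := c1 i hi; simp; omega⟩
    · exact Or.inl ⟨e, by have := hi.1; have := hi.2; simp; omega⟩) (by
    rintro i hi j hj (h | ⟨-, a1, a2, a3, a4⟩)
    · exact h rfl
    have i1 := hi.resolve_right fun h => a2.ne h.1
    have j1 := hj.resolve_right fun h => a3.ne h.1
    exact a4 ⟨c3 _ i1 _ j1 a1, c3 _ j1 _ i1 (Ne.symm a1)⟩)
  refine ⟨S, s1, s2.trans ?_, s3⟩
  rcases b with _ | b
  · simp [c2]
  · simp only [Nat.zero_lt_succ, and_true, Set.ofPred_eq_eq_singleton, Set.union_singleton]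
    rw [Set.ncard_insert_of_notMem (by simpa), Set.ncard_coe_finset, c2]; omega

omit hb hk hn in
lemma to_clq {S : Set V} (hS : G.IsIndepSet S) (e : ∀ a ∈ S, ((f a).1 = 0 ↔ b = 1))
    (h : k + b ≤ S.ncard) (hb : b ≤ 1) : HasClq M k := by
  classical
  let T := (fun a => (f a).2) '' S
  have t0 : T.Finite := Set.toFinite _
  have t1 : k ≤ (T \ {M.length}).ncard := by
    rw [card_snd h1 h3 hS] at h
    by_cases c : M.length ∈ T
    · have := Set.ncard_sdiff_singleton_add_one c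
      obtain ⟨a, ha, c⟩ := c
      have := ((h2 _).1 ⟨a, rfl⟩).2
      have := e a ha
      unfold ok at *; simp only [T] at *; omega
    · rw [Set.sdiff_singleton_eq_self c]; simp only [T]; omega
  obtain ⟨U, u1, u2⟩ := Set.exists_subset_card_eq t1
  have u3 : ∀ i ∈ U, ∃ a ∈ S, (f a).2 = i ∧ i < M.length := fun i hi => by
    obtain ⟨⟨a, ha, c⟩, d⟩ := u1 hi
    have := ((h2 _).1 ⟨a, rfl⟩).2
    have := e a ha
    refine ⟨a, ha, c, ?_⟩
    unfold ok at *; simp only [Set.mem_singleton_iff] at *; omega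
  have u0 : U.Finite := (t0.subset Set.sdiff_subset).subset u1
  refine ⟨u0.toFinset, fun i hi => ?_, by rw [← Set.ncard_eq_toFinset_card _ u0, u2],
    fun i hi j hj ne => ?_⟩
  · obtain ⟨_, _, _, h⟩ := u3 i (by simpa using hi); exact h
  obtain ⟨a, ha, rfl, a2⟩ := u3 i (by simpa using hi)
  obtain ⟨c, hc, rfl, c2⟩ := u3 j (by simpa using hj)
  by_contra g
  exact hS ha hc (by rintro rfl; exact ne rfl) ((h1 _ _).2 (Or.inr ⟨e a ha, ne, a2, c2, fun h => g h.1⟩))

omit hb hk hn in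
lemma ind (p : ℕ) (hp : p < M.length + 3) (e : ¬ (p = 0 ↔ b = 1)) :
    ∃ S : Set V, G.IsIndepSet S ∧ S.ncard = k ∧ ∀ a ∈ S, (f a).1 = p := by
  simpa using part h1 h2 h3 p hp (Set.Iio k) (fun i hi => Or.inr ⟨e, hi⟩) (by
    rintro i - j - (h | h)
    · exact h rfl
    · exact e h.1)

omit [Finite V] hb hk hn in
lemma ind_le {S : Set V} (hS : G.IsIndepSet S) {a : V} (ha : a ∈ S) (e : ¬ ((f a).1 = 0 ↔ b = 1)) :
    S.ncard ≤ k := card_le h1 h3 hS fun c hc => by
  have := ((h2 _).1 ⟨c, rfl⟩).2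
  have := same h1 h3 hS ha hc
  unfold ok at *; omega

lemma main : core G = ∅ ↔ (HasClq M k ↔ b = 0) := by
  obtain ⟨S, hS⟩ := ex_max (G := G)
  obtain ⟨I, i1, i2, i3⟩ := ind h1 h2 h3 b (by omega) (by omega)
  have ne : ∀ {T}, MaxInd G T → ∃ a, a ∈ T := fun {T} hT =>
    Set.nonempty_of_ncard_ne_zero (by have := hT.2 I i1; omega)
  obtain ⟨s, hs⟩ := ne hS
  -- a vertex of part 0 without neighbours in part 0
  have w : (∀ T, MaxInd G T → ∀ a ∈ T, (f a).1 = 0) → core G ≠ ∅ := fun h => by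
    obtain ⟨a, ha⟩ := (h2 (0, b * M.length)).2 ⟨by simp, by
      unfold ok; rcases b with _ | _ | b <;> simp <;> omega⟩
    refine Set.Nonempty.ne_empty ⟨a, fun T hT => by_contra fun c => ?_⟩
    have g : ∀ x ∈ T, ¬ G.Adj a x := fun x hx g => by
      have := h T hT x hx
      rw [h1, ha] at g
      unfold adj at g
      rcases b with _ | _ | b <;> simp at g <;> omega
    have := hT.2 (insert a T) (hT.1.insert fun x hx _ => ⟨g x hx, fun e => g x hx e.symm⟩)
    rw [Set.ncard_insert_of_notMem c] at this; omega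
  by_cases c : HasClq M k
  · obtain ⟨C, c1, c2, c3⟩ := of_clq h1 h2 h3 hn c (1 - b) (by omega) (by omega)
    rcases b with _ | _ | b
    · simp only [c, true_iff, iff_true]
      by_cases e : (f s).1 = 0
      · have := ind_le h1 h2 h3 hS.1 hs (by simp [e])
        exact core_empty h1 h2 h3 (S := C) ⟨c1, fun U hU => by have := hS.2 U hU; omega⟩
          fun a ha => by simp [c3 a ha]
      · exact core_empty h1 h2 h3 hS fun a ha => same h1 h3 hS.1 hs ha ▸ e
    · simp only [c, true_iff]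
      refine iff_of_false (w fun T hT a ha => by_contra fun e => ?_) (by omega)
      have := ind_le h1 h2 h3 hT.1 ha (by simp [e])
      have := hT.2 C c1
      omega
    · omega
  · rcases b with _ | _ | b
    · refine iff_of_false (w fun T hT a ha => by_contra fun e => c ?_) (by simp [c])
      exact to_clq h1 h2 h3 hT.1 (fun x hx => by simp [← same h1 h3 hT.1 ha hx, e])
        (by have := hT.2 I i1; omega) hb
    · refine iff_of_true (core_empty h1 h2 h3 (S := I) ⟨i1, fun U hU => (hS.2 U hU).trans ?_⟩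
        fun a ha => by simp [i3 a ha]) (by simp [c])
      by_cases e : (f s).1 = 0
      · by_contra g
        exact c (to_clq h1 h2 h3 hS.1 (fun x hx => by simp [← same h1 h3 hS.1 hs hx, e]) (by omega) hb)
      · exact i2 ▸ ind_le h1 h2 h3 hS.1 hs (by simp [e])
    · omega

end

def verts (b : ℕ) (z : List (List Bool) × ℕ) : List (ℕ × ℕ) :=
  (List.range (z.1.length + 3) ×ˢ List.range (z.1.length + z.2 + b)).filter fun p =>
    decide (ok b z.1.length z.2 p)

def red (b : ℕ) (z : List (List Bool) × ℕ) : List (List Bool) :=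
  mat (verts b z) fun p q => decide (adj b z.1 p q)

lemma red_pt (b : ℕ) : PT (red b) := by
  unfold red verts
  refine PT.mat (PT.filter (PP.decide ?_) (by fun_prop)) (PP.decide ?_)
  · unfold ok; fun_prop
  · unfold adj; fun_prop

lemma red_iff {b : ℕ} (hb : b ≤ 1) (M : List (List Bool)) (k : ℕ) (hk : 2 ≤ k) (hn : k ≤ M.length) :
    Rec (red b (M, k)) ↔ (HasClq M k ↔ b = 0) := by
  obtain ⟨g, f, h1, h2, h3, -⟩ := graph_kit (verts b (M, k)) (adj b M)
    (fun _ _ => by unfold adj; grind) (fun p => by unfold adj; simp)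
    ((List.nodup_range.product List.nodup_range).filter _) (M := red b (M, k)) rfl
  have h2' : ∀ p, (∃ a, f a = p) ↔ p.1 < M.length + 3 ∧ ok b M.length k p := by
    rintro ⟨a, c⟩
    simp only [h2, verts, List.mem_filter, List.mem_product, List.mem_range, decide_eq_true_eq]
    unfold ok; omega
  rw [Rec, nuc h1 h2' h3 hb hk hn, main h1 h2' h3 hb hk hn]
  simp [g]

theorem result : NPHard (Lang Rec) ∧ CoNPHard (Lang Rec) :=
  ⟨Hard.npHard (Hard.of_clique (red_pt 0) fun M k _ a b => by simp [red_iff zero_le_one M k a b]),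
    Hard.coNPHard (Hard.of_clique (red_pt 1) fun M k _ a b => by simp [red_iff le_rfl M k a b])⟩

end Pool.Agent.Results.MP_54ee58_lc.Hard
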